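import Mathlib

/-!
Processes of integer points that move one at a time by at most one step and may only meet at the
origin: the multi-scale lower bound for the number of steps.
-/

namespace Pool.Agent.V1120.Peb

open Finset

/-- `n` points on the line, `T` steps; one point moves at each step, by at most one; two points can
only share the position `0`, and at most two of them do. -/
structure Proc (n T : ℕ) where
  x : ℕ → Fin n → ℤ
  step : ∀ t < T, ∃ i, |x (t + 1) i - x t i| ≤ 1 ∧ ∀ j, j ≠ i → x (t + 1) j = x t j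
  inj : ∀ t ≤ T, ∀ i j, i ≠ j → x t i = x t j → x t i = 0
  two : ∀ t ≤ T, (univ.filter fun i => x t i = 0).card ≤ 2

namespace Proc

variable {n T : ℕ}

/-- The mirror image. -/
def neg (P : Proc n T) : Proc n T where
  x t i := - P.x t i
  step t ht := by
    obtain ⟨i, h1, h2⟩ := P.step t ht
    refine ⟨i, ?_, fun j hj => by rw [h2 j hj]⟩
    rw [abs_le] at h1 ⊢
    constructor <;> linarith [h1.1, h1.2]
  inj t ht i j hij h := by
    have := P.inj t ht i j hij (by linarith)
    simp [this]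
  two t ht := by
    have := P.two t ht
    simpa using this

@[simp] lemma neg_x (P : Proc n T) (t : ℕ) (i : Fin n) : P.neg.x t i = - P.x t i := rfl

/-- The points to the left of the origin. -/
def Lf (P : Proc n T) (t : ℕ) : Finset (Fin n) := univ.filter fun i => P.x t i < 0

/-- Their number. -/
def lam (P : Proc n T) (t : ℕ) : ℕ := (P.Lf t).card

lemma mem_Lf (P : Proc n T) (t : ℕ) (i : Fin n) : i ∈ P.Lf t ↔ P.x t i < 0 := by simp [Lf]

lemma step_le (P : Proc n T) {t : ℕ} (ht : t < T) (i : Fin n) :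
    |P.x (t + 1) i - P.x t i| ≤ 1 := by
  obtain ⟨k, h1, h2⟩ := P.step t ht
  by_cases h : i = k
  · rw [h]; exact h1
  · rw [h2 i h]; simp

lemma mover_unique (P : Proc n T) {t : ℕ} (ht : t < T) {i j : Fin n}
    (hi : P.x (t + 1) i ≠ P.x t i) (hj : P.x (t + 1) j ≠ P.x t j) : i = j := by
  obtain ⟨k, _, h2⟩ := P.step t ht
  have h3 : i = k := by by_contra h; exact hi (h2 i h)
  have h4 : j = k := by by_contra h; exact hj (h2 j h)
  rw [h3, h4]

/-- Order can only change at the origin. -/
lemma order (P : Proc n T) {a b : ℕ} (hab : a ≤ b) (hb : b ≤ T) {i j : Fin n} (hij : i ≠ j)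
    (hn : ∀ t, a ≤ t → t ≤ b → ¬ (P.x t i = 0 ∧ P.x t j = 0)) (h : P.x a i < P.x a j) :
    P.x b i < P.x b j := by
  induction b, hab using Nat.le_induction with
  | base => exact h
  | succ b hab ih =>
    have h1 := ih (by omega) (fun t h1 h2 => hn t h1 (by omega))
    have h2 : P.x (b + 1) i ≤ P.x (b + 1) j := by
      obtain ⟨k, h3, h4⟩ := P.step b (by omega)
      rw [abs_le] at h3
      by_cases hk : i = k
      · have : P.x (b + 1) j = P.x b j := h4 j (fun h => hij (hk.trans h.symm))
        rw [this]; subst hk; linarith [h3.2]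
      · rw [h4 i hk]
        by_cases hk' : j = k
        · subst hk'; linarith [h3.1]
        · rw [h4 j hk']; exact h1.le
    rcases h2.lt_or_eq with h3 | h3
    · exact h3
    · exfalso
      have h4 := P.inj (b + 1) hb i j hij h3
      exact hn (b + 1) (by omega) le_rfl ⟨h4, by rw [← h3]; exact h4⟩

/-- Discrete intermediate value theorem. -/
lemma ivt (y : ℕ → ℤ) {a b : ℕ} (hab : a ≤ b) (hs : ∀ t, a ≤ t → t < b → |y (t + 1) - y t| ≤ 1)
    (d : ℤ) (h1 : y a ≤ d) (h2 : d < y b) : ∃ t, a ≤ t ∧ t < b ∧ y t = d ∧ y (t + 1) = d + 1 := by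
  induction b, hab using Nat.le_induction with
  | base => omega
  | succ b hab ih =>
    by_cases h : d < y b
    · obtain ⟨t, h3, h4, h5, h6⟩ := ih (fun t h1 h2 => hs t h1 (by omega)) h
      exact ⟨t, h3, by omega, h5, h6⟩
    · have h3 := hs b hab (by omega)
      rw [abs_le] at h3
      exact ⟨b, hab, by omega, by omega, by omega⟩

/-- Step `t` moves a point between distances `m` and `m + 1` from the origin with `s ≤ m < 2 s`. -/
def Band (P : Proc n T) (s t : ℕ) : Prop :=
  ∃ i, P.x (t + 1) i ≠ P.x t i ∧ (s : ℤ) ≤ min |P.x t i| |P.x (t + 1) i| ∧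
    min |P.x t i| |P.x (t + 1) i| < 2 * s

open Classical in
/-- The number of such steps in a time interval. -/
noncomputable def cnt (P : Proc n T) (s a b : ℕ) : ℕ := ((Ico a b).filter fun t => P.Band s t).card

lemma band_neg (P : Proc n T) (s t : ℕ) : P.neg.Band s t ↔ P.Band s t := by
  unfold Band
  simp only [neg_x, abs_neg]
  constructor
  · rintro ⟨i, h1, h2⟩
    exact ⟨i, fun h => h1 (by rw [h]), h2⟩
  · rintro ⟨i, h1, h2⟩
    exact ⟨i, fun h => h1 (by linarith), h2⟩

lemma cnt_neg (P : Proc n T) (s a b : ℕ) : P.neg.cnt s a b = P.cnt s a b := by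
  unfold cnt
  congr 1
  ext t
  simp [band_neg]

lemma cnt_add (P : Proc n T) (s : ℕ) {a b c : ℕ} (h1 : a ≤ b) (h2 : b ≤ c) :
    P.cnt s a c = P.cnt s a b + P.cnt s b c := by
  classical
  unfold cnt
  rw [← Finset.Ico_union_Ico_eq_Ico h1 h2, Finset.filter_union, Finset.card_union_of_disjoint]
  apply Finset.disjoint_filter_filter
  exact Finset.Ico_disjoint_Ico_consecutive a b c

/-- Many points cross the band. -/
lemma cross (P : Proc n T) {s a b : ℕ} (hs : 1 ≤ s) (hab : a ≤ b) (hb : b ≤ T)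
    (W : Finset (Fin n)) (hW : s ≤ W.card)
    (h1 : ∀ i ∈ W, P.x a i ≤ s) (h2 : ∀ i ∈ W, 2 * (s : ℤ) ≤ P.x b i) :
    s * s ≤ P.cnt s a b := by
  classical
  have key : ∀ q : Fin n × ℕ, q ∈ W ×ˢ Ico s (2 * s) →
      ∃ t, a ≤ t ∧ t < b ∧ P.x t q.1 = q.2 ∧ P.x (t + 1) q.1 = q.2 + 1 := by
    rintro ⟨i, d⟩ hq
    rw [mem_product, mem_Ico] at hq
    obtain ⟨hi, hd1, hd2⟩ := hq
    have h3 := h1 i hi
    have h4 := h2 i hi
    simp only at hd1 hd2
    have hd1' : (s : ℤ) ≤ d := by exact_mod_cast hd1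
    have hd2' : (d : ℤ) < 2 * s := by exact_mod_cast hd2
    exact ivt (fun t => P.x t i) hab (fun t _ ht => P.step_le (by omega) i) d (by omega)
      (by omega)
  choose! τ hτ using key
  have hinj : Set.InjOn τ (W ×ˢ Ico s (2 * s) : Finset (Fin n × ℕ)) := by
    intro q hq q' hq' h
    obtain ⟨_, hb1, h3, h4⟩ := hτ q hq
    obtain ⟨_, _, h5, h6⟩ := hτ q' hq'
    rw [← h] at h5 h6
    have hi : q.1 = q'.1 := P.mover_unique (t := τ q) (by omega) (by rw [h3, h4]; omega)
      (by rw [h5, h6]; omega)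
    refine Prod.ext hi ?_
    rw [hi, h5] at h3
    exact_mod_cast h3.symm
  have hsub : (W ×ˢ Ico s (2 * s)).image τ ⊆ (Ico a b).filter fun t => P.Band s t := by
    intro t ht
    rw [mem_image] at ht
    obtain ⟨q, hq, rfl⟩ := ht
    obtain ⟨h3, h4, h5, h6⟩ := hτ q hq
    rw [mem_product, mem_Ico] at hq
    rw [mem_filter, mem_Ico]
    refine ⟨⟨h3, h4⟩, q.1, by rw [h5, h6]; omega, ?_⟩
    have hd1' : (s : ℤ) ≤ q.2 := by exact_mod_cast hq.2.1
    have hd2' : (q.2 : ℤ) < 2 * s := by exact_mod_cast hq.2.2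
    rw [h5, h6, abs_of_nonneg (by omega), abs_of_nonneg (by omega), min_eq_left (by omega)]
    exact ⟨hd1', hd2'⟩
  calc s * s ≤ W.card * s := Nat.mul_le_mul_right _ hW
    _ = (W ×ˢ Ico s (2 * s)).card := by
        rw [card_product, Nat.card_Ico]; congr 1; omega
    _ = ((W ×ˢ Ico s (2 * s)).image τ).card := (card_image_of_injOn hinj).symm
    _ ≤ _ := card_le_card hsub

/-- Few points near the origin on one side. -/
lemma near (P : Proc n T) {b : ℕ} (hb : b ≤ T) (s : ℕ) (hs : 1 ≤ s) :
    (univ.filter fun i => 0 ≤ P.x b i ∧ P.x b i < 2 * s).card ≤ 2 * s + 1 := by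
  classical
  have h1 : (univ.filter fun i => 0 ≤ P.x b i ∧ P.x b i < 2 * (s : ℤ)) ⊆
      (univ.filter fun i => P.x b i = 0) ∪
        (univ.filter fun i => 0 < P.x b i ∧ P.x b i < 2 * (s : ℤ)) := by
    intro i hi
    simp only [mem_filter, mem_univ, true_and, mem_union] at hi ⊢
    rcases hi.1.lt_or_eq with h | h
    · exact Or.inr ⟨h, hi.2⟩
    · exact Or.inl h.symm
  have h2 : (univ.filter fun i => 0 < P.x b i ∧ P.x b i < 2 * (s : ℤ)).card ≤ 2 * s - 1 := by
    have : (univ.filter fun i => 0 < P.x b i ∧ P.x b i < 2 * (s : ℤ)).card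
        ≤ (Ioo (0 : ℤ) (2 * s)).card := by
      apply card_le_card_of_injOn (fun i => P.x b i)
      · intro i hi
        simp only [coe_filter, mem_univ, true_and, Set.mem_ofPred_eq] at hi
        simpa using hi
      · intro i hi j hj h
        by_contra hij
        simp only [coe_filter, mem_univ, true_and, Set.mem_ofPred_eq] at hi
        have := P.inj b hb i j hij h
        omega
    refine this.trans ?_
    rw [Int.card_Ioo]
    omega
  have h3 := P.two b hb
  have h4 := card_le_card h1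
  have h5 := card_union_le (univ.filter fun i => P.x b i = 0)
    (univ.filter fun i => 0 < P.x b i ∧ P.x b i < 2 * (s : ℤ))
  omega

/-- A large change of the number of left points is expensive at scale `s`. -/
lemma cost_down (P : Proc n T) {s a b : ℕ} (hs : 1 ≤ s) (hab : a ≤ b) (hb : b ≤ T)
    (h : P.lam b + 5 * s ≤ P.lam a) : s * s ≤ P.cnt s a b := by
  classical
  have h1 : 5 * s ≤ (P.Lf a \ P.Lf b).card := by
    have := le_card_sdiff (P.Lf b) (P.Lf a)
    unfold lam at h
    omega
  apply P.cross hs hab hb ((P.Lf a \ P.Lf b) \ (univ.filter fun i => 0 ≤ P.x b i ∧ P.x b i < 2 * s))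
  · have h2 := le_card_sdiff (univ.filter fun i => 0 ≤ P.x b i ∧ P.x b i < 2 * (s : ℤ))
      (P.Lf a \ P.Lf b)
    have h3 := P.near hb s hs
    omega
  · intro i hi
    simp only [mem_sdiff, mem_Lf] at hi
    have := hi.1.1
    omega
  · intro i hi
    simp only [mem_sdiff, mem_Lf, mem_filter, mem_univ, true_and, not_and, not_lt] at hi
    exact hi.2 hi.1.2

lemma cost_up (P : Proc n T) {s a b : ℕ} (hs : 1 ≤ s) (hab : a ≤ b) (hb : b ≤ T)
    (h : P.lam a + 5 * s ≤ P.lam b) : s * s ≤ P.cnt s a b := by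
  classical
  have h1 : 5 * s ≤ (P.Lf b \ P.Lf a).card := by
    have := le_card_sdiff (P.Lf a) (P.Lf b)
    unfold lam at h
    omega
  rw [← P.cnt_neg]
  apply P.neg.cross hs hab hb
    ((P.Lf b \ P.Lf a) \ (univ.filter fun i => 0 ≤ P.neg.x b i ∧ P.neg.x b i < 2 * s))
  · have h2 := le_card_sdiff (univ.filter fun i => 0 ≤ P.neg.x b i ∧ P.neg.x b i < 2 * (s : ℤ))
      (P.Lf b \ P.Lf a)
    have h3 := P.neg.near hb s hs
    omega
  · intro i hi
    simp only [mem_sdiff, mem_Lf] at hi
    have := hi.1.2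
    rw [neg_x]
    omega
  · intro i hi
    simp only [mem_sdiff, mem_Lf, mem_filter, mem_univ, true_and, not_and, not_lt] at hi
    have h2 := hi.1.1
    exact hi.2 (by rw [neg_x]; omega)

/-- The left points behave like a stack. -/
lemma stack (P : Proc n T) {a b A : ℕ} (hab : a ≤ b) (hb : b ≤ T)
    (hA : ∀ t, a ≤ t → t ≤ b → P.lam a ≤ P.lam t + A) (V : Finset (Fin n)) (hV : V ⊆ P.Lf a)
    (hV2 : ∀ i ∈ V, ∃ t, a ≤ t ∧ t ≤ b ∧ P.x t i = 0) : V.card ≤ A := by
  classical
  rcases V.eq_empty_or_nonempty with h | h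
  · simp [h]
  obtain ⟨i, hi, hmin⟩ := V.exists_min_image (fun i => P.x a i) h
  have hex : ∃ t, a ≤ t ∧ P.x t i = 0 := by
    obtain ⟨t, h1, _, h3⟩ := hV2 i hi
    exact ⟨t, h1, h3⟩
  obtain ⟨ht1, ht2⟩ := Nat.find_spec hex
  set u := Nat.find hex with hu
  have hub : u ≤ b := by
    obtain ⟨t, h1, h2, h3⟩ := hV2 i hi
    exact (Nat.find_min' hex ⟨h1, h3⟩).trans h2
  have hia : P.x a i < 0 := (P.mem_Lf a i).1 (hV hi)
  set B : Finset (Fin n) := univ.filter fun j => P.x a j < P.x a i with hB
  have h1 : P.Lf u ⊆ B := by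
    intro j hj
    rw [mem_Lf] at hj
    have hij : i ≠ j := by rintro rfl; omega
    simp only [hB, mem_filter, mem_univ, true_and]
    by_contra hc
    have h3 : P.x a i < P.x a j := by
      rcases lt_trichotomy (P.x a i) (P.x a j) with h | h | h
      · exact h
      · have := P.inj a (by omega) i j hij h; omega
      · exact absurd h hc
    have h4 := P.order ht1 (by omega) hij (fun t h5 h6 => by
      rintro ⟨h7, h8⟩
      rcases h6.lt_or_eq with h9 | h9
      · exact Nat.find_min hex h9 ⟨h5, h7⟩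
      · rw [h9] at h8; omega) h3
    omega
  have h2 : V ⊆ P.Lf a \ B := by
    intro j hj
    rw [mem_sdiff]
    refine ⟨hV hj, ?_⟩
    simp only [hB, mem_filter, mem_univ, true_and, not_lt]
    exact hmin j hj
  have h3 : B ⊆ P.Lf a := by
    intro j hj
    simp only [hB, mem_filter, mem_univ, true_and] at hj
    rw [mem_Lf]; omega
  have h4 := card_le_card h1
  have h5 := card_le_card h2
  rw [card_sdiff_of_subset h3] at h5
  have h6 := hA u ht1 hub
  unfold lam at h6
  have h7 := card_le_card h3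
  omega

lemma count (P : Proc n T) (t : ℕ) :
    P.lam t + (univ.filter fun i => P.x t i = 0).card + P.neg.lam t = n := by
  classical
  have h1 : P.Lf t ∪ (univ.filter fun i => P.x t i = 0) ∪ P.neg.Lf t = univ := by
    ext i
    simp only [mem_union, mem_Lf, mem_filter, mem_univ, true_and, neg_x, iff_true]
    omega
  have h2 : Disjoint (P.Lf t) (univ.filter fun i => P.x t i = 0) := by
    rw [Finset.disjoint_left]
    intro i hi
    simp only [mem_Lf, mem_filter, mem_univ, true_and] at hi ⊢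
    omega
  have h3 : Disjoint (P.Lf t ∪ (univ.filter fun i => P.x t i = 0)) (P.neg.Lf t) := by
    rw [Finset.disjoint_left]
    intro i hi
    simp only [mem_union, mem_Lf, mem_filter, mem_univ, true_and, neg_x] at hi ⊢
    omega
  have h4 := congrArg Finset.card h1
  rw [card_union_of_disjoint h3, card_union_of_disjoint h2] at h4
  simpa [lam] using h4

open Classical in
/-- The points that visit the origin in a time interval. -/
noncomputable def Vis (P : Proc n T) (a b : ℕ) : Finset (Fin n) :=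
  univ.filter fun i => ∃ t, a ≤ t ∧ t ≤ b ∧ P.x t i = 0

lemma vis_card (P : Proc n T) {s a b : ℕ} (hs : 1 ≤ s) (hab : a ≤ b) (hb : b ≤ T)
    (h1 : ∀ t, a ≤ t → t ≤ b → P.lam t < P.lam a + 5 * s)
    (h2 : ∀ t, a ≤ t → t ≤ b → P.lam a < P.lam t + 5 * s) : (P.Vis a b).card ≤ 12 * s := by
  classical
  have hL : (P.Vis a b ∩ P.Lf a).card ≤ 5 * s - 1 := by
    apply P.stack hab hb (fun t h3 h4 => by have := h2 t h3 h4; omega) _ inter_subset_right
    intro i hi
    rw [mem_inter] at hi
    simpa [Vis] using hi.1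
  have hR : (P.Vis a b ∩ P.neg.Lf a).card ≤ 5 * s + 1 := by
    apply P.neg.stack hab hb (fun t h3 h4 => ?_) _ inter_subset_right
    · intro i hi
      rw [mem_inter] at hi
      simpa [Vis] using hi.1
    · have h5 := h1 t h3 h4
      have h6 := P.count a
      have h7 := P.count t
      have h8 := P.two t (by omega)
      omega
  have hsub : P.Vis a b ⊆ (P.Vis a b ∩ P.Lf a) ∪ (univ.filter fun i => P.x a i = 0) ∪
      (P.Vis a b ∩ P.neg.Lf a) := by
    intro i hi
    simp only [mem_union, mem_inter, mem_Lf, mem_filter, mem_univ, true_and, neg_x]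
    rcases lt_trichotomy (P.x a i) 0 with h | h | h
    · exact Or.inl (Or.inl ⟨hi, h⟩)
    · exact Or.inl (Or.inr h)
    · exact Or.inr ⟨hi, by omega⟩
  have h3 := card_le_card hsub
  have h4 := card_union_le ((P.Vis a b ∩ P.Lf a) ∪ (univ.filter fun i => P.x a i = 0))
      (P.Vis a b ∩ P.neg.Lf a)
  have h5 := card_union_le (P.Vis a b ∩ P.Lf a) (univ.filter fun i => P.x a i = 0)
  have h6 := P.two a (by omega)
  omega

open Classical in
/-- The pairs of points that are at the origin simultaneously at some time of an interval. -/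
noncomputable def Prs (P : Proc n T) (a b : ℕ) : Finset (Fin n × Fin n) :=
  univ.filter fun q => ∃ t, a ≤ t ∧ t ≤ b ∧ P.x t q.1 = 0 ∧ P.x t q.2 = 0

lemma prs_le_vis (P : Proc n T) (a b : ℕ) : (P.Prs a b).card ≤ (P.Vis a b).card ^ 2 := by
  classical
  have : P.Prs a b ⊆ P.Vis a b ×ˢ P.Vis a b := by
    intro q hq
    simp only [Prs, Vis, mem_filter, mem_univ, true_and, mem_product] at hq ⊢
    obtain ⟨t, h1, h2, h3, h4⟩ := hq
    exact ⟨⟨t, h1, h2, h3⟩, ⟨t, h1, h2, h4⟩⟩
  have h := card_le_card this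
  rw [card_product] at h
  rw [sq]
  exact h

/-- The estimate at one scale. -/
lemma scale (P : Proc n T) {s : ℕ} (hs : 1 ≤ s) {b : ℕ} (hb : b ≤ T) :
    ∀ m a : ℕ, a ≤ b → b - a ≤ m → (P.Prs a b).card ≤ 144 * (P.cnt s a b + s * s) := by
  classical
  intro m
  induction m using Nat.strong_induction_on with
  | _ m ih =>
    intro a hab hm
    by_cases hall : ∀ t, a ≤ t → t ≤ b → P.lam t < P.lam a + 5 * s ∧ P.lam a < P.lam t + 5 * s
    · have h1 := P.vis_card hs hab hb (fun t h1 h2 => (hall t h1 h2).1)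
        (fun t h1 h2 => (hall t h1 h2).2)
      have h2 := P.prs_le_vis a b
      have h3 : (P.Vis a b).card ^ 2 ≤ (12 * s) ^ 2 := Nat.pow_le_pow_left h1 2
      nlinarith [h2, h3]
    · have hex : ∃ t, a ≤ t ∧ t ≤ b ∧
          ¬ (P.lam t < P.lam a + 5 * s ∧ P.lam a < P.lam t + 5 * s) := by
        push Not at hall
        obtain ⟨t, h1, h2, h3⟩ := hall
        exact ⟨t, h1, h2, fun h => absurd (h3 h.1) (by omega)⟩
      obtain ⟨hu1, hu2, hu3⟩ := Nat.find_spec hex
      set u := Nat.find hex with hu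
      have hlt : a < u := by
        rcases hu1.lt_or_eq with h | h
        · exact h
        · exfalso; apply hu3; rw [← h]; omega
      have hbefore : ∀ t, a ≤ t → t ≤ u - 1 →
          P.lam t < P.lam a + 5 * s ∧ P.lam a < P.lam t + 5 * s := by
        intro t h1 h2
        by_contra h3
        exact Nat.find_min hex (m := t) (by omega) ⟨h1, by omega, h3⟩
      have hc : s * s ≤ P.cnt s a u := by
        by_cases h : P.lam a + 5 * s ≤ P.lam u
        · exact P.cost_up hs hu1 (by omega) h
        · exact P.cost_down hs hu1 (by omega) (by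
            by_contra h'
            exact hu3 ⟨by omega, by omega⟩)
      have h1 := P.vis_card hs (show a ≤ u - 1 by omega) (by omega)
        (fun t h1 h2 => (hbefore t h1 h2).1) (fun t h1 h2 => (hbefore t h1 h2).2)
      have h2 := P.prs_le_vis a (u - 1)
      have h3 : (P.Vis a (u - 1)).card ^ 2 ≤ (12 * s) ^ 2 := Nat.pow_le_pow_left h1 2
      have h4 := ih (b - u) (by omega) u hu2 le_rfl
      have h5 := P.cnt_add s hu1 hu2
      have h6 : P.Prs a b ⊆ P.Prs a (u - 1) ∪ P.Prs u b := by
        intro q hq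
        simp only [Prs, mem_filter, mem_univ, true_and, mem_union] at hq ⊢
        obtain ⟨t, h7, h8, h9⟩ := hq
        by_cases h : t < u
        · exact Or.inl ⟨t, h7, by omega, h9⟩
        · exact Or.inr ⟨t, by omega, h8, h9⟩
      have h7 := (card_le_card h6).trans (card_union_le _ _)
      nlinarith [h2, h3, h4, h5, h7, hc]

/-- The lower bound for a process in which all pairs meet at the origin. -/
theorem total (P : Proc n T) {r : ℕ} (hn : n = 24 * 2 ^ r)
    (hall : ∀ i j : Fin n, i ≠ j → ∃ t ≤ T, P.x t i = 0 ∧ P.x t j = 0) :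
    (r + 1) * (3 * 4 ^ r) ≤ T := by
  classical
  have hcard : (P.Prs 0 T).card = n * n := by
    have : P.Prs 0 T = univ := by
      ext ⟨i, j⟩
      simp only [Prs, mem_filter, mem_univ, true_and, iff_true]
      by_cases hij : i = j
      · subst hij
        have h2 : 1 < n := by
          have := Nat.one_le_two_pow (n := r)
          omega
        obtain ⟨k, hk⟩ : ∃ k : Fin n, k ≠ i := by
          have : Nontrivial (Fin n) := Fin.nontrivial_iff_two_le.2 h2
          exact exists_ne i
        obtain ⟨t, h3, h4, _⟩ := hall i k hk.symm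
        exact ⟨t, Nat.zero_le _, h3, h4, h4⟩
      · obtain ⟨t, h3, h4⟩ := hall i j hij
        exact ⟨t, Nat.zero_le _, h3, h4⟩
    rw [this]
    simp
  have h1 : ∀ j ∈ range (r + 1), 3 * 4 ^ r ≤ P.cnt (2 ^ j) 0 T := by
    intro j hj
    have hj' : j ≤ r := by have := mem_range.1 hj; omega
    have h2 := P.scale (s := 2 ^ j) Nat.one_le_two_pow le_rfl T 0 (Nat.zero_le _) (by omega)
    rw [hcard] at h2
    have h6 : n * n = 576 * (2 ^ r * 2 ^ r) := by
      calc n * n = (24 * 2 ^ r) * (24 * 2 ^ r) := by rw [← hn]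
        _ = 576 * (2 ^ r * 2 ^ r) := by ring
    have h3 : (2 : ℕ) ^ j ≤ 2 ^ r := Nat.pow_le_pow_right (by norm_num) hj'
    have h4 : (4 : ℕ) ^ r = 2 ^ r * 2 ^ r := by
      rw [← mul_pow]; norm_num
    have h5 : (2 : ℕ) ^ j * 2 ^ j ≤ 2 ^ r * 2 ^ r := Nat.mul_le_mul h3 h3
    nlinarith
  have h2 : (∑ j ∈ range (r + 1), P.cnt (2 ^ j) 0 T) ≤ T := by
    unfold cnt
    rw [← card_biUnion]
    · refine (card_le_card (t := Ico 0 T) ?_).trans (by simp)
      intro t ht
      simp only [mem_biUnion, mem_filter] at ht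
      obtain ⟨_, _, h, _⟩ := ht
      exact h
    · intro j _ j' _ hjj
      rw [Function.onFun, Finset.disjoint_left]
      intro t ht ht'
      rw [mem_filter, mem_Ico] at ht ht'
      obtain ⟨⟨_, htT⟩, i, h3, h4, h5⟩ := ht
      obtain ⟨_, i', h6, h7, h8⟩ := ht'
      have hii := P.mover_unique htT h3 h6
      subst hii
      push_cast at h4 h5 h7 h8
      rcases lt_or_gt_of_ne hjj with h | h
      · have : (2 : ℤ) * 2 ^ j ≤ 2 ^ j' := by
          rw [← pow_succ']; exact pow_le_pow_right₀ (by norm_num) h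
        omega
      · have : (2 : ℤ) * 2 ^ j' ≤ 2 ^ j := by
          rw [← pow_succ']; exact pow_le_pow_right₀ (by norm_num) h
        omega
  calc (r + 1) * (3 * 4 ^ r) = ∑ _j ∈ range (r + 1), 3 * 4 ^ r := by simp
    _ ≤ ∑ j ∈ range (r + 1), P.cnt (2 ^ j) 0 T := sum_le_sum h1
    _ ≤ T := h2

end Proc

end Pool.Agent.V1120.Peb
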