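import Pool.Agent.V1120.Peb.Abs

/-!
Pebble motion on trees: definitions, and the tree consisting of a path with a pendant leaf at its
middle vertex.
-/

namespace Pool.Agent.V1120.Peb

open Finset

/-- A configuration: every pebble has a vertex, different pebbles have different vertices. -/
abbrev Config (V : Type) (n : ℕ) := Fin n ↪ V

/-- One pebble moves to an adjacent unoccupied vertex. -/
def Move {V : Type} {n : ℕ} (G : SimpleGraph V) (p q : Config V n) : Prop :=
  ∃ i, G.Adj (p i) (q i) ∧ (∀ j, p j ≠ q i) ∧ ∀ j, j ≠ i → q j = p j

/-- `f` can be transformed into `g` by exactly `m` moves. -/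
def Solution {V : Type} {n : ℕ} (G : SimpleGraph V) (f g : Config V n) (m : ℕ) : Prop :=
  ∃ s : ℕ → Config V n, s 0 = f ∧ s m = g ∧ ∀ t < m, Move G (s t) (s (t + 1))

/-- The minimum number of moves that transform `f` into `g`. -/
noncomputable def minMoves {V : Type} {n : ℕ} (G : SimpleGraph V) (f g : Config V n) : ℕ :=
  sInf {m | Solution G f g m}

/-- `x` is a cut vertex: the graph without `x` is disconnected. -/
def IsCutVertex {V : Type} (G : SimpleGraph V) (x : V) : Prop :=
  ¬ (G.induce {y | y ≠ x}).Preconnected

/-- An isthmus: a path all of whose edges are bridges, all of whose vertices are cut vertices, and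
whose inner vertices have degree two. -/
structure IsIsthmus {V : Type} (G : SimpleGraph V) {u v : V} (p : G.Walk u v) : Prop where
  isPath : p.IsPath
  bridge : ∀ e ∈ p.edges, G.IsBridge e
  cut : ∀ x ∈ p.support, IsCutVertex G x
  deg : ∀ i, 0 < i → i < p.length → (G.neighborSet (p.getVert i)).ncard = 2

/-- The number of vertices of a longest isthmus. -/
noncomputable def isthmusNumber {V : Type} (G : SimpleGraph V) : ℕ :=
  sSup {d | ∃ (u v : V) (p : G.Walk u v), IsIsthmus G p ∧ d = p.length + 1}

/-- The vertices: a path with `2 L + 1` vertices, and one more vertex. -/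
abbrev Vx (L : ℕ) := Option (Fin (2 * L + 1))

/-- Adjacency. -/
def adjT (L : ℕ) : Vx L → Vx L → Prop
  | some a, some b => (a : ℕ) + 1 = b ∨ (b : ℕ) + 1 = a
  | none, some b => (b : ℕ) = L
  | some a, none => (a : ℕ) = L
  | none, none => False

/-- The tree. -/
def tree (L : ℕ) : SimpleGraph (Vx L) where
  Adj := adjT L
  symm := ⟨by
    rintro (_ | a) (_ | b) h
    · exact h
    · exact h
    · exact h
    · exact Or.symm h⟩
  loopless := ⟨by
    rintro (_ | a) h
    · exact h
    · simp [adjT] at h⟩

/-- The coordinate of a vertex. -/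
def pos (L : ℕ) : Vx L → ℤ
  | none => 0
  | some a => (a : ℕ) - (L : ℤ)

lemma pos_step {L : ℕ} {u v : Vx L} (h : (tree L).Adj u v) : |pos L v - pos L u| ≤ 1 := by
  rw [abs_le]
  rcases u with _ | a <;> rcases v with _ | b
  · exact absurd h (fun h => h)
  · have : (b : ℕ) = L := h
    simp only [pos]; omega
  · have : (a : ℕ) = L := h
    simp only [pos]; omega
  · have h' : (a : ℕ) + 1 = b ∨ (b : ℕ) + 1 = a := h
    simp only [pos]; omega

lemma pos_inj {L : ℕ} {u v : Vx L} (h : u ≠ v) (h2 : pos L u = pos L v) : pos L u = 0 := by
  rcases u with _ | a <;> rcases v with _ | b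
  · exact absurd rfl h
  · rfl
  · simpa [pos] using h2
  · exfalso
    apply h
    simp only [pos] at h2
    congr 1
    apply Fin.ext
    omega

lemma pos_zero {L : ℕ} {u : Vx L} (h : pos L u = 0) :
    u = none ∨ u = some ⟨L, by omega⟩ := by
  rcases u with _ | a
  · exact Or.inl rfl
  · right
    simp only [pos] at h
    congr 1
    apply Fin.ext
    simp only
    omega

/-- The tree is connected. -/
lemma conn (L : ℕ) : (tree L).Connected := by
  rw [SimpleGraph.connected_iff_exists_forall_reachable]
  refine ⟨some ⟨0, by omega⟩, ?_⟩
  have h1 : ∀ k : ℕ, ∀ hk : k < 2 * L + 1, (tree L).Reachable (some ⟨0, by omega⟩) (some ⟨k, hk⟩) := by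
    intro k
    induction k with
    | zero => intro _; exact SimpleGraph.Reachable.refl _
    | succ k ih =>
      intro hk
      refine (ih (by omega)).trans (SimpleGraph.Adj.reachable ?_)
      exact Or.inl rfl
  rintro (_ | a)
  · refine (h1 L (by omega)).trans (SimpleGraph.Adj.reachable ?_)
    exact (rfl : (L : ℕ) = L)
  · exact h1 a.1 a.2

lemma not_reach {V : Type} {H : SimpleGraph V} (A : Set V) (hA : ∀ u v, H.Adj u v → u ∈ A → v ∈ A)
    {u v : V} (hu : u ∈ A) (hv : v ∉ A) : ¬ H.Reachable u v := by
  rintro ⟨p⟩
  induction p with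
  | nil => exact hv hu
  | cons h p ih => exact ih (hA _ _ h hu) hv

/-- The tree is acyclic. -/
lemma acyc (L : ℕ) : (tree L).IsAcyclic := by
  rw [SimpleGraph.isAcyclic_iff_forall_adj_isBridge]
  intro u v huv
  rw [SimpleGraph.isBridge_iff]
  rcases u with _ | a <;> rcases v with _ | b
  · exact absurd huv (fun h => h)
  · have hb : (b : ℕ) = L := huv
    refine not_reach {x | x = none} ?_ rfl (by simp)
    intro x y hxy hx
    rw [Set.mem_ofPred_eq] at hx
    subst hx
    rw [SimpleGraph.deleteEdges_adj] at hxy
    obtain ⟨h1, h2⟩ := hxy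
    rcases y with _ | y
    · rfl
    · exfalso
      have hy : (y : ℕ) = L := h1
      apply h2
      have : y = b := Fin.ext (by omega)
      rw [this]; rfl
  · have ha : (a : ℕ) = L := huv
    refine not_reach {x | x ≠ none} ?_ (by simp) (by simp)
    intro x y hxy hx
    rw [Set.mem_ofPred_eq] at hx ⊢
    rw [SimpleGraph.deleteEdges_adj] at hxy
    obtain ⟨h1, h2⟩ := hxy
    rintro rfl
    rcases x with _ | x
    · exact hx rfl
    · have hx' : (x : ℕ) = L := h1
      apply h2
      have : x = a := Fin.ext (by omega)
      rw [this]; rfl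
  · have hab : (a : ℕ) + 1 = b ∨ (b : ℕ) + 1 = a := huv
    rcases hab with hab | hab
    · refine not_reach {x | pos L x ≤ pos L (some a)} ?_ (by simp) (by simp [pos]; omega)
      intro x y hxy hx
      rw [SimpleGraph.deleteEdges_adj] at hxy
      obtain ⟨h1, h2⟩ := hxy
      rw [Set.mem_ofPred_eq] at hx ⊢
      by_contra h3
      have h4 := pos_step h1
      rw [abs_le] at h4
      rcases x with _ | x <;> rcases y with _ | y
      · exact h3 hx
      · have : (y : ℕ) = L := h1
        simp only [pos] at hx h3; omega
      · have : (x : ℕ) = L := h1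
        simp only [pos] at hx h3; omega
      · simp only [pos] at hx h3 h4
        apply h2
        have e1 : x = a := Fin.ext (by omega)
        have e2 : y = b := Fin.ext (by omega)
        rw [e1, e2]; rfl
    · refine not_reach {x | pos L (some a) ≤ pos L x} ?_ (by simp) (by simp [pos]; omega)
      intro x y hxy hx
      rw [SimpleGraph.deleteEdges_adj] at hxy
      obtain ⟨h1, h2⟩ := hxy
      rw [Set.mem_ofPred_eq] at hx ⊢
      by_contra h3
      have h4 := pos_step h1
      rw [abs_le] at h4
      rcases x with _ | x <;> rcases y with _ | y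
      · exact h3 hx
      · have : (y : ℕ) = L := h1
        simp only [pos] at hx h3; omega
      · have : (x : ℕ) = L := h1
        simp only [pos] at hx h3; omega
      · simp only [pos] at hx h3 h4
        apply h2
        have e1 : x = a := Fin.ext (by omega)
        have e2 : y = b := Fin.ext (by omega)
        rw [e1, e2]; rfl

lemma isTree (L : ℕ) : (tree L).IsTree := ⟨conn L, acyc L⟩

lemma card_Vx (L : ℕ) : Fintype.card (Vx L) = 2 * L + 2 := by
  simp [Vx]

/-- The middle vertex has at least three neighbours. -/
lemma deg_mid {L : ℕ} (hL : 1 ≤ L) :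
    3 ≤ ((tree L).neighborSet (some ⟨L, by omega⟩)).ncard := by
  classical
  have h : (↑({none, some ⟨L - 1, by omega⟩, some ⟨L + 1, by omega⟩} : Finset (Vx L)) : Set (Vx L))
      ⊆ (tree L).neighborSet (some ⟨L, by omega⟩) := by
    intro x hx
    simp only [Finset.coe_insert, Finset.coe_singleton, Set.mem_insert_iff,
      Set.mem_singleton_iff] at hx
    rw [SimpleGraph.mem_neighborSet]
    rcases hx with rfl | rfl | rfl
    · exact (rfl : L = L)
    · exact Or.inr (by simp only; omega)
    · exact Or.inl rfl
  have h2 := Set.ncard_le_ncard h (Set.toFinite _)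
  rw [Set.ncard_coe_finset] at h2
  refine le_trans (le_of_eq ?_) h2
  rw [Finset.card_insert_of_notMem, Finset.card_insert_of_notMem, Finset.card_singleton]
  · simp only [Finset.mem_singleton, Option.some.injEq, Fin.mk.injEq]; omega
  · simp

/-- The pendant vertex has one neighbour. -/
lemma deg_none (L : ℕ) : ((tree L).neighborSet none).ncard = 1 := by
  rw [Set.ncard_eq_one]
  refine ⟨some ⟨L, by omega⟩, ?_⟩
  ext x
  rw [SimpleGraph.mem_neighborSet, Set.mem_singleton_iff]
  rcases x with _ | x
  · simp only [reduceCtorEq, iff_false]
    exact fun h => h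
  · constructor
    · intro h
      have : (x : ℕ) = L := h
      congr 1
      exact Fin.ext this
    · intro h
      rw [h]
      exact (rfl : L = L)

lemma pos_of_adj_none {L : ℕ} {x : Vx L} (h : (tree L).Adj none x) : pos L x = 0 := by
  rcases x with _ | b
  · rfl
  · have : (b : ℕ) = L := h
    simp only [pos]; omega

/-- An isthmus of the tree has at most `L + 1` vertices. -/
lemma isthmus_le {L : ℕ} (hL : 1 ≤ L) {u v : Vx L} (p : (tree L).Walk u v)
    (hp : IsIsthmus (tree L) p) : p.length + 1 ≤ L + 1 := by
  classical
  by_contra hcon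
  push Not at hcon
  have hm : 2 ≤ p.length := by omega
  set y : ℕ → ℤ := fun i => pos L (p.getVert i) with hy
  have hstep : ∀ i, i < p.length → |y (i + 1) - y i| ≤ 1 := fun i hi =>
    pos_step (p.adj_getVert_succ hi)
  have hin : ∀ i, 0 < i → i < p.length → y i ≠ 0 := by
    intro i h1 h2 h3
    have h4 := hp.deg i h1 h2
    rcases pos_zero h3 with h5 | h5
    · rw [h5, deg_none] at h4; omega
    · have h6 := deg_mid hL
      rw [h5] at h4; omega
  have hsome : ∀ i, i ≤ p.length → p.getVert i ≠ none := by
    intro i hi h
    rcases Nat.eq_zero_or_pos i with h0 | h0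
    · -- the next vertex would be the middle
      subst h0
      have h1 := p.adj_getVert_succ (show 0 < p.length by omega)
      rw [h] at h1
      have h2 := hin 1 (by omega) (by omega)
      exact h2 (pos_of_adj_none h1)
    · have h1 := p.adj_getVert_succ (show i - 1 < p.length by omega)
      rw [show i - 1 + 1 = i by omega, h] at h1
      rcases Nat.eq_or_lt_of_le hi with h3 | h3
      · have h2 := hin (i - 1) (by omega) (by omega)
        exact h2 (pos_of_adj_none h1.symm)
      · exact hin i h0 h3 (by simp only [hy]; rw [h]; rfl)
  -- constant sign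
  have hsign : ∀ e : ℤ, (e = 1 ∨ e = -1) → 0 < e * y 1 → False := by
    intro e he h1
    have h2 : ∀ i, 1 ≤ i → i < p.length → 0 < e * y i := by
      intro i hi
      induction i, hi using Nat.le_induction with
      | base => intro _; exact h1
      | succ i hi ih =>
        intro h3
        have h4 := ih (by omega)
        have h5 := hstep i (by omega)
        have h6 := hin (i + 1) (by omega) h3
        rw [abs_le] at h5
        rcases he with rfl | rfl <;> omega
    have h3 : ∀ i, i ≤ p.length → 0 ≤ e * y i := by
      intro i hi
      rcases Nat.eq_zero_or_pos i with h0 | h0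
      · subst h0
        have h5 := hstep 0 (by omega)
        rw [abs_le] at h5
        simp only [zero_add] at h5
        rcases he with rfl | rfl <;> omega
      · rcases Nat.eq_or_lt_of_le hi with h4 | h4
        · have h5 := hstep (i - 1) (by omega)
          have h6 := h2 (i - 1) (by omega) (by omega)
          rw [show i - 1 + 1 = i by omega] at h5
          rw [abs_le] at h5
          rcases he with rfl | rfl <;> omega
        · exact (h2 i h0 h4).le
    have h4 : ((Finset.range (p.length + 1)).image fun i => e * y i) ⊆ Finset.Icc 0 (L : ℤ) := by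
      intro z hz
      rw [Finset.mem_image] at hz
      obtain ⟨i, hi, rfl⟩ := hz
      rw [Finset.mem_range] at hi
      rw [Finset.mem_Icc]
      refine ⟨h3 i (by omega), ?_⟩
      simp only [hy]
      rcases hz : p.getVert i with _ | b
      · exact absurd hz (hsome i (by omega))
      · have := b.2
        simp only [pos]
        rcases he with rfl | rfl <;> omega
    have h5 : Set.InjOn (fun i => e * y i) (Finset.range (p.length + 1) : Finset ℕ) := by
      intro i hi j hj hij
      rw [Finset.coe_range, Set.mem_Iio] at hi hj
      have h6 : y i = y j := by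
        simp only at hij
        rcases he with rfl | rfl <;> omega
      have h7 := hp.isPath.getVert_injOn
      apply h7 (by rw [Set.mem_ofPred_eq]; omega) (by rw [Set.mem_ofPred_eq]; omega)
      simp only [hy] at h6
      rcases hzi : p.getVert i with _ | b
      · exact absurd hzi (hsome i (by omega))
      · rcases hzj : p.getVert j with _ | c
        · exact absurd hzj (hsome j (by omega))
        · rw [hzi, hzj] at h6
          simp only [pos] at h6
          congr 1
          exact Fin.ext (by omega)
    have h6 := Finset.card_le_card h4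
    rw [Finset.card_image_of_injOn h5, Finset.card_range, Int.card_Icc] at h6
    omega
  rcases lt_trichotomy (y 1) 0 with h | h | h
  · exact hsign (-1) (Or.inr rfl) (by omega)
  · exact hin 1 (by omega) (by omega) h
  · exact hsign 1 (Or.inl rfl) (by omega)

lemma isthmusNumber_le {L : ℕ} (hL : 1 ≤ L) : isthmusNumber (tree L) ≤ L + 1 := by
  apply csSup_le'
  rintro d ⟨u, v, p, hp, rfl⟩
  exact isthmus_le hL p hp

end Pool.Agent.V1120.Peb
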