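import Pool.Agent.V1120.Peb.Gr

/-!
The instance is solvable.
-/

namespace Pool.Agent.V1120.Peb

open Finset Relation

lemma move_symm {V : Type} {n : ℕ} {G : SimpleGraph V} {p q : Config V n} (h : Move G p q) :
    Move G q p := by
  obtain ⟨i, h1, h2, h3⟩ := h
  refine ⟨i, h1.symm, ?_, fun j hj => (h3 j hj).symm⟩
  intro j hj
  by_cases hji : j = i
  · subst hji
    exact h1.ne hj.symm
  · rw [h3 j hji] at hj
    exact hji (p.injective hj)

lemma solution_of_reach {V : Type} {n : ℕ} {G : SimpleGraph V} {f g : Config V n}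
    (h : ReflTransGen (Move G) f g) : ∃ m, Solution G f g m := by
  induction h using ReflTransGen.head_induction_on with
  | refl => exact ⟨0, fun _ => g, rfl, rfl, fun t ht => absurd ht (by omega)⟩
  | @head a c hm _ ih =>
    obtain ⟨m, s, h1, h2, h3⟩ := ih
    refine ⟨m + 1, fun t => Nat.casesOn t a (fun t => s t), rfl, h2, ?_⟩
    intro t ht
    rcases t with _ | t
    · simp only
      rw [h1]
      exact hm
    · exact h3 t (by omega)

variable {L n : ℕ}

/-- The same pebbles are on the path, in the same order. -/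
def SameOrder (f g : Config (Vx L) n) : Prop :=
  (∀ i, f i = none ↔ g i = none) ∧ ∀ i j, f i ≠ none → f j ≠ none →
    (pos L (f i) < pos L (f j) ↔ pos L (g i) < pos L (g j))

lemma SameOrder.symm {f g : Config (Vx L) n} (h : SameOrder f g) : SameOrder g f := by
  refine ⟨fun i => (h.1 i).symm, fun i j hi hj => (h.2 i j ?_ ?_).symm⟩
  · exact fun h' => hi ((h.1 i).1 h')
  · exact fun h' => hj ((h.1 j).1 h')

/-- Total distance. -/
def tdist (f g : Config (Vx L) n) : ℕ := ∑ i, (pos L (f i) - pos L (g i)).natAbs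

lemma tdist_comm (f g : Config (Vx L) n) : tdist f g = tdist g f := by
  unfold tdist
  apply Finset.sum_congr rfl
  intro i _
  omega

lemma pos_some_inj {u v : Vx L} (hu : u ≠ none) (hv : v ≠ none) (h : pos L u = pos L v) :
    u = v := by
  rcases u with _ | a
  · exact absurd rfl hu
  rcases v with _ | b
  · exact absurd rfl hv
  simp only [pos] at h
  congr 1
  exact Fin.ext (by omega)

lemma one_up (f g : Config (Vx L) n) (h : SameOrder f g) (i0 : Fin n)
    (hi0 : pos L (f i0) < pos L (g i0)) :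
    ∃ f' : Config (Vx L) n, Move (tree L) f f' ∧ SameOrder f' g ∧ tdist f' g < tdist f g := by
  classical
  obtain ⟨i, hi, hmax⟩ := (univ.filter fun i => pos L (f i) < pos L (g i)).exists_max_image
    (fun i => pos L (f i)) ⟨i0, by simpa using hi0⟩
  rw [mem_filter] at hi
  obtain ⟨_, hi⟩ := hi
  have hfi : f i ≠ none := by
    intro hc
    have := (h.1 i).1 hc
    rw [hc, this] at hi
    exact lt_irrefl _ hi
  have hgi : g i ≠ none := fun hc => hfi ((h.1 i).2 hc)
  obtain ⟨a, ha⟩ := Option.ne_none_iff_exists'.1 hfi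
  obtain ⟨b, hb⟩ := Option.ne_none_iff_exists'.1 hgi
  have hab : (a : ℕ) < b := by
    rw [ha, hb] at hi
    simp only [pos] at hi
    omega
  have hb2 := b.2
  set v : Vx L := some ⟨a + 1, by omega⟩ with hv
  have hpv : pos L v = pos L (f i) + 1 := by
    rw [ha, hv]
    simp only [pos]
    push_cast
    ring
  have hvn : v ≠ none := by rw [hv]; simp
  have hocc : ∀ j, f j ≠ v := by
    intro j hj
    have h1 : pos L (f i) < pos L (f j) := by rw [hj, hpv]; omega
    have h2 := (h.2 i j hfi (by rw [hj]; exact hvn)).1 h1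
    have h3 : pos L (f j) < pos L (g j) := by rw [hj, hpv]; omega
    have h4 := hmax j (by simpa using h3)
    omega
  set f' : Config (Vx L) n := f.trans (Equiv.swap (f i) v).toEmbedding with hf'
  have hfi' : f' i = v := by
    simp [hf']
  have hfj' : ∀ j, j ≠ i → f' j = f j := by
    intro j hj
    simp only [hf', Function.Embedding.trans_apply, Equiv.coe_toEmbedding]
    exact Equiv.swap_apply_of_ne_of_ne (fun hc => hj (f.injective hc)) (hocc j)
  refine ⟨f', ⟨i, ?_, ?_, hfj'⟩, ⟨?_, ?_⟩, ?_⟩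
  · rw [hfi', ha, hv]
    exact Or.inl rfl
  · rw [hfi']; exact hocc
  · intro j
    by_cases hj : j = i
    · subst hj
      rw [hfi']
      exact ⟨fun h' => absurd h' hvn, fun h' => absurd h' hgi⟩
    · rw [hfj' j hj]; exact h.1 j
  · intro j k hj hk
    by_cases hji : j = i <;> by_cases hki : k = i
    · subst hji; subst hki
      simp
    · subst hji
      rw [hfj' k hki] at hk ⊢
      rw [hfi', hpv, ← h.2 j k hfi hk]
      have h1 : pos L (f k) ≠ pos L (f j) + 1 := by
        rw [← hpv]
        exact fun h' => hocc k (pos_some_inj hk hvn h')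
      omega
    · subst hki
      rw [hfj' j hji] at hj ⊢
      rw [hfi', hpv, ← h.2 j k hj hfi]
      have h1 : pos L (f j) ≠ pos L (f k) :=
        fun h' => hji (f.injective (pos_some_inj hj hfi h'))
      omega
    · rw [hfj' j hji] at hj ⊢
      rw [hfj' k hki] at hk ⊢
      exact h.2 j k hj hk
  · unfold tdist
    apply Finset.sum_lt_sum
    · intro j _
      by_cases hj : j = i
      · subst hj
        rw [hfi', hpv]
        omega
      · rw [hfj' j hj]
    · refine ⟨i, mem_univ _, ?_⟩
      rw [hfi', hpv]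
      omega

lemma reach_of_sameOrder : ∀ (N : ℕ) (f g : Config (Vx L) n), tdist f g ≤ N → SameOrder f g →
    ReflTransGen (Move (tree L)) f g := by
  intro N
  induction N with
  | zero =>
    intro f g hN h
    have h1 : f = g := by
      ext1 i
      have h2 : (pos L (f i) - pos L (g i)).natAbs = 0 := by
        have h3 := Finset.single_le_sum (f := fun i => (pos L (f i) - pos L (g i)).natAbs)
          (fun _ _ => Nat.zero_le _) (mem_univ i)
        unfold tdist at hN
        omega
      by_cases hf : f i = none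
      · rw [hf, (h.1 i).1 hf]
      · exact pos_some_inj hf (fun hc => hf ((h.1 i).2 hc)) (by omega)
    rw [h1]
  | succ N ih =>
    intro f g hN h
    by_cases hfg : ∃ i, pos L (f i) ≠ pos L (g i)
    · obtain ⟨i, hi⟩ := hfg
      rcases lt_or_gt_of_ne hi with hi | hi
      · obtain ⟨f', h1, h2, h3⟩ := one_up f g h i hi
        exact (ReflTransGen.single h1).trans (ih f' g (by omega) h2)
      · obtain ⟨g', h1, h2, h3⟩ := one_up g f h.symm i hi
        rw [tdist_comm g' f, tdist_comm g f] at h3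
        exact (ih f g' (by omega) h2.symm).trans (ReflTransGen.single (move_symm h1))
    · push Not at hfg
      apply ih f g _ h
      unfold tdist
      rw [Finset.sum_eq_zero]
      · omega
      · intro i _
        rw [hfg i]; simp

/-- The vertex with a given coordinate. -/
def vert (L : ℕ) (z : ℤ) : Vx L := some ⟨min (z + L).toNat (2 * L), by omega⟩

lemma pos_vert {z : ℤ} (h1 : -(L : ℤ) ≤ z) (h2 : z ≤ L) : pos L (vert L z) = z := by
  simp only [vert, pos]
  omega

lemma vert_ne (z : ℤ) : vert L z ≠ none := by simp [vert]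

/-- The configuration with given coordinates. -/
def cfg (y : Fin n → ℤ) (hy : ∀ i, -(L : ℤ) ≤ y i ∧ y i ≤ L) (hi : Function.Injective y) :
    Config (Vx L) n :=
  ⟨fun i => vert L (y i), fun i j h => by
    have h' : vert L (y i) = vert L (y j) := h
    apply hi
    rw [← pos_vert (hy i).1 (hy i).2, ← pos_vert (hy j).1 (hy j).2, h']⟩

/-- The same with pebble `k` on the pendant vertex. -/
def cfgD (y : Fin n → ℤ) (hy : ∀ i, -(L : ℤ) ≤ y i ∧ y i ≤ L) (hi : Function.Injective y)
    (k : Fin n) : Config (Vx L) n :=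
  ⟨fun i => if i = k then none else vert L (y i), fun i j h => by
    have h' : (if i = k then none else vert L (y i)) = (if j = k then none else vert L (y j)) := h
    by_cases h1 : i = k <;> by_cases h2 : j = k
    · rw [h1, h2]
    · rw [if_pos h1, if_neg h2] at h'
      exact absurd h'.symm (vert_ne _)
    · rw [if_neg h1, if_pos h2] at h'
      exact absurd h' (vert_ne _)
    · rw [if_neg h1, if_neg h2] at h'
      apply hi
      rw [← pos_vert (hy i).1 (hy i).2, ← pos_vert (hy j).1 (hy j).2, h']⟩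

lemma pos_cfg (y : Fin n → ℤ) (hy : ∀ i, -(L : ℤ) ≤ y i ∧ y i ≤ L) (hi : Function.Injective y)
    (i : Fin n) : pos L (cfg y hy hi i) = y i := pos_vert (hy i).1 (hy i).2

lemma cfg_ne (y : Fin n → ℤ) (hy : ∀ i, -(L : ℤ) ≤ y i ∧ y i ≤ L) (hi : Function.Injective y)
    (i : Fin n) : cfg y hy hi i ≠ none := vert_ne _

lemma cfgD_eq (y : Fin n → ℤ) (hy : ∀ i, -(L : ℤ) ≤ y i ∧ y i ≤ L) (hi : Function.Injective y)
    (k i : Fin n) : cfgD y hy hi k i = if i = k then none else vert L (y i) := rfl

/-- Two configurations on the path with the same order. -/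
lemma reach_cfg (y z : Fin n → ℤ) (hy : ∀ i, -(L : ℤ) ≤ y i ∧ y i ≤ L)
    (hyi : Function.Injective y) (hz : ∀ i, -(L : ℤ) ≤ z i ∧ z i ≤ L) (hzi : Function.Injective z)
    (h : ∀ i j, y i < y j ↔ z i < z j) :
    ReflTransGen (Move (tree L)) (cfg y hy hyi) (cfg z hz hzi) := by
  apply reach_of_sameOrder _ _ _ le_rfl
  refine ⟨fun i => ?_, fun i j _ _ => ?_⟩
  · exact ⟨fun h => absurd h (cfg_ne _ _ _ _), fun h => absurd h (cfg_ne _ _ _ _)⟩
  · rw [pos_cfg, pos_cfg, pos_cfg, pos_cfg]; exact h i j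

lemma reach_cfgD (y z : Fin n → ℤ) (hy : ∀ i, -(L : ℤ) ≤ y i ∧ y i ≤ L)
    (hyi : Function.Injective y) (hz : ∀ i, -(L : ℤ) ≤ z i ∧ z i ≤ L) (hzi : Function.Injective z)
    (k : Fin n) (h : ∀ i j, i ≠ k → j ≠ k → (y i < y j ↔ z i < z j)) :
    ReflTransGen (Move (tree L)) (cfgD y hy hyi k) (cfgD z hz hzi k) := by
  apply reach_of_sameOrder _ _ _ le_rfl
  refine ⟨fun i => ?_, fun i j hi hj => ?_⟩
  · rw [cfgD_eq, cfgD_eq]
    by_cases hi : i = k
    · rw [if_pos hi, if_pos hi]
    · rw [if_neg hi, if_neg hi]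
      exact ⟨fun h => absurd h (vert_ne _), fun h => absurd h (vert_ne _)⟩
  · rw [cfgD_eq] at hi hj
    have h1 : i ≠ k := fun hc => hi (if_pos hc)
    have h2 : j ≠ k := fun hc => hj (if_pos hc)
    rw [cfgD_eq, cfgD_eq, cfgD_eq, cfgD_eq, if_neg h1, if_neg h2, if_neg h1, if_neg h2,
      pos_vert (hy i).1 (hy i).2, pos_vert (hy j).1 (hy j).2, pos_vert (hz i).1 (hz i).2,
      pos_vert (hz j).1 (hz j).2]
    exact h i j h1 h2

lemma move_D (y : Fin n → ℤ) (hy : ∀ i, -(L : ℤ) ≤ y i ∧ y i ≤ L)
    (hyi : Function.Injective y) (k : Fin n) (hk : y k = 0) :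
    Move (tree L) (cfg y hy hyi) (cfgD y hy hyi k) := by
  refine ⟨k, ?_, ?_, ?_⟩
  · rw [cfgD_eq, if_pos rfl]
    show (tree L).Adj (vert L (y k)) none
    rw [hk]
    show min ((0 : ℤ) + L).toNat (2 * L) = L
    omega
  · intro j
    rw [cfgD_eq, if_pos rfl]
    exact cfg_ne _ _ _ _
  · intro j hj
    rw [cfgD_eq, if_neg hj]
    rfl

/-- Ranks: the first `k` pebbles are reversed. -/
def rk (k : ℕ) (i : Fin n) : ℤ := if (i : ℕ) < k then (k : ℤ) - 1 - i else i

lemma rk_inj (k : ℕ) : Function.Injective (rk (n := n) k) := by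
  intro i j h
  unfold rk at h
  apply Fin.ext
  split_ifs at h <;> omega

lemma rk_bound (k : ℕ) (hk : k ≤ n) (i : Fin n) : 0 ≤ rk k i ∧ rk k i ≤ (n : ℤ) - 1 := by
  have := i.2
  unfold rk
  split_ifs <;> constructor <;> omega

/-- The configuration in which the first `k` of the pebbles are reversed. -/
def A (hn : n ≤ L) (k : ℕ) (hk : k ≤ n) : Config (Vx L) n :=
  cfg (fun i => rk k i - L) (fun i => by
    have := rk_bound k hk i
    constructor <;> omega) (fun i j h => rk_inj k (by
      have h' : rk k i - (L : ℤ) = rk k j - L := h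
      linarith))

lemma reach_step (hn : n ≤ L) (k : ℕ) (hk : k < n) :
    ReflTransGen (Move (tree L)) (A hn k hk.le) (A hn (k + 1) hk) := by
  have b1 := rk_bound (n := n) k hk.le
  have b2 := rk_bound (n := n) (k + 1) hk
  have e1 : rk (n := n) k ⟨k, hk⟩ = k := by simp [rk]
  have e2 : rk (n := n) (k + 1) ⟨k, hk⟩ = 0 := by simp [rk]
  have hy : ∀ i : Fin n, -(L : ℤ) ≤ rk k i - k ∧ rk k i - k ≤ L := fun i => by
    have := b1 i
    constructor <;> omega
  have hyi : Function.Injective (fun i : Fin n => rk k i - (k : ℤ)) := fun i j h => rk_inj k (by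
    have h' : rk k i - (k : ℤ) = rk k j - k := h
    linarith)
  have hz : ∀ i : Fin n, -(L : ℤ) ≤ rk (k + 1) i ∧ rk (k + 1) i ≤ L := fun i => by
    have := b2 i
    constructor <;> omega
  have s1 : ReflTransGen (Move (tree L)) (A hn k hk.le) (cfg _ hy hyi) :=
    reach_cfg _ _ _ _ _ _ (fun i j => by constructor <;> intro h <;> linarith)
  have s2 : Move (tree L) (cfg _ hy hyi) (cfgD _ hy hyi ⟨k, hk⟩) :=
    move_D _ _ _ _ (by rw [e1]; ring)
  have s3 : ReflTransGen (Move (tree L)) (cfgD _ hy hyi ⟨k, hk⟩)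
      (cfgD _ hz (rk_inj (k + 1)) ⟨k, hk⟩) := by
    apply reach_cfgD
    intro i j hi hj
    have hi' : (i : ℕ) ≠ k := fun h => hi (Fin.ext h)
    have hj' : (j : ℕ) ≠ k := fun h => hj (Fin.ext h)
    unfold rk
    push_cast
    split_ifs <;> omega
  have s4 : Move (tree L) (cfgD _ hz (rk_inj (k + 1)) ⟨k, hk⟩) (cfg _ hz (rk_inj (k + 1))) :=
    move_symm (move_D _ _ _ _ e2)
  have s5 : ReflTransGen (Move (tree L)) (cfg _ hz (rk_inj (k + 1))) (A hn (k + 1) hk) :=
    reach_cfg _ _ _ _ _ _ (fun i j => by constructor <;> intro h <;> linarith)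
  exact ((s1.trans (ReflTransGen.single s2)).trans s3).trans ((ReflTransGen.single s4).trans s5)

lemma reach_all (hn : n ≤ L) : ∀ (k : ℕ) (hk : k ≤ n),
    ReflTransGen (Move (tree L)) (A hn 0 (Nat.zero_le _)) (A hn k hk) := by
  intro k
  induction k with
  | zero => intro _; exact ReflTransGen.refl
  | succ k ih => intro hk; exact (ih (by omega)).trans (reach_step hn k hk)

lemma pos_A (hn : n ≤ L) (k : ℕ) (hk : k ≤ n) (i : Fin n) : pos L (A hn k hk i) = rk k i - L :=
  pos_cfg _ _ _ _

end Pool.Agent.V1120.Peb
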